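import Pool.Agent.MWP.Stmts

/-! Squad MWP, row CLS. -/

set_option autoImplicit false

namespace Pool.Agent.MWP.H10

open Pool.Agent.Helper14_MV Pool.Agent.Helper2_MV Pool.Agent.MWF

theorem mem_ro {o : Bool} {u : List ℕ} (h : ∀ c, c ∈ u ↔ (1 ≤ c ∧ c ≤ 4)) (c : ℕ) :
    c ∈ ro o u ↔ (1 ≤ c ∧ c ≤ 4) := by
  unfold ro
  cases o
  · simpa using h c
  · simpa using h c

/-- a condition which only depends on the patterns of length two -/
def Pat (C : List ℕ → Prop) : Prop :=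
  ∀ w w' : List ℕ, (∀ x y, [x, y].Sublist w ↔ [x, y].Sublist w') → C w → C w'

theorem bf_pat {o : Bool} {x y : ℕ} {w w' : List ℕ}
    (h : ∀ x y, [x, y].Sublist w ↔ [x, y].Sublist w') : Bf o x y w ↔ Bf o x y w' := by
  unfold Bf
  cases o
  · simp only [Bool.false_eq_true, if_false]
    rw [h]
  · simp only [if_true]
    rw [h]

theorem pat_b (o : Bool) : Pat (Cb o) := by
  intro w w' h hc
  exact ⟨(bf_pat h).1 hc.1, fun h1 => hc.2 ((bf_pat h).2 h1)⟩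

theorem pat_c (o : Bool) : Pat (Cc o) := by
  intro w w' h hc
  exact ⟨(bf_pat h).1 hc.1, fun h1 => hc.2 ((bf_pat h).2 h1)⟩

theorem pat_k (o : Bool) : Pat (Ck o) := by
  intro w w' h hc
  exact ⟨(bf_pat h).1 hc.1, (bf_pat h).1 hc.2.1, fun h1 => hc.2.2 ((bf_pat h).2 h1)⟩

theorem ks_step (hmap : MapStmt) (hloc : LocStmt) {v : List ℕ} {h : ℕ} (hh : Hgt v h)
    (h2 : 2 ≤ h) {C : List ℕ → Prop} (hC : Pat C) {u u' : List ℕ}
    (hu : ∀ c, c ∈ u ↔ (1 ≤ c ∧ c ≤ 4)) (hu' : ∀ c, c ∈ u' ↔ (1 ≤ c ∧ c ≤ 4))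
    (key : ∀ f : ℕ → List ℕ, Good f → ∀ γ q : List ℕ, C (γ ++ u.flatMap f ++ q) →
      C (γ ++ u'.flatMap f ++ q)) (f : ℕ → List ℕ) (p q : List ℕ)
    (hk : KS v C (p ++ (Sw v u).flatMap f ++ q)) : KS v C (p ++ (Sw v u').flatMap f ++ q) := by
  obtain ⟨w0, w1, hw, hB, hc⟩ := hk
  obtain ⟨w0', w1', hw', hB', halt⟩ := hloc v u u' f p q w0 w1 hu hu' hB hw
  refine ⟨w0', w1', hw', hB', ?_⟩
  rcases halt with h3 | ⟨α, γ, e0, e1, e2⟩
  · exact hC w1 w1' (fun x y => (h3 x y).symm) hc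
  · rw [e0, e1] at hB
    have hg := hmap v h hh h2 f p α γ q u hu hB
    rw [e2]
    rw [e1] at hc
    exact key f hg γ q hc

theorem ks_pair (hmap : MapStmt) (hloc : LocStmt) {v : List ℕ} {h : ℕ} (hh : Hgt v h)
    (h2 : 2 ≤ h) {C : List ℕ → Prop} (hC : Pat C) {u u' : List ℕ}
    (hu : ∀ c, c ∈ u ↔ (1 ≤ c ∧ c ≤ 4)) (hu' : ∀ c, c ∈ u' ↔ (1 ≤ c ∧ c ≤ 4))
    (key : ∀ f : ℕ → List ℕ, Good f → ∀ γ q : List ℕ, (C (γ ++ u.flatMap f ++ q) ↔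
      C (γ ++ u'.flatMap f ++ q))) : RR (gaml (KS v C)) (Sw v u) (Sw v u') := by
  apply RR_gaml
  intro f p q
  exact ⟨ks_step hmap hloc hh h2 hC hu hu' (fun f hf γ q => (key f hf γ q).1) f p q,
    ks_step hmap hloc hh h2 hC hu' hu (fun f hf γ q => (key f hf γ q).2) f p q⟩

theorem cls (hmap : MapStmt) (hcmb : CmbStmt) (hloc : LocStmt) : ClsStmt := by
  intro v h hh h2 o
  have m1 : ∀ c, c ∈ [2, 4, 1, 3] ↔ (1 ≤ c ∧ c ≤ 4) := by
    intro c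
    simp only [List.mem_cons, List.not_mem_nil, or_false]
    omega
  have m2 : ∀ c, c ∈ [2, 3, 4, 1] ↔ (1 ≤ c ∧ c ≤ 4) := by
    intro c
    simp only [List.mem_cons, List.not_mem_nil, or_false]
    omega
  have m3 : ∀ c, c ∈ [4, 2, 3, 1] ↔ (1 ≤ c ∧ c ≤ 4) := by
    intro c
    simp only [List.mem_cons, List.not_mem_nil, or_false]
    omega
  have m4 : ∀ c, c ∈ [4, 1, 2, 3] ↔ (1 ≤ c ∧ c ≤ 4) := by
    intro c
    simp only [List.mem_cons, List.not_mem_nil, or_false]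
    omega
  refine ⟨?_, ?_, ?_, ?_, ?_⟩
  · exact ks_pair hmap hloc hh h2 (pat_b o) (mem_ro m1) (mem_ro m2)
      fun f hf γ q => (hcmb f hf o γ q).1
  · exact ks_pair hmap hloc hh h2 (pat_c o) (mem_ro m2) (mem_ro m3)
      fun f hf γ q => (hcmb f hf o γ q).2.1
  · exact ks_pair hmap hloc hh h2 (pat_k o) (mem_ro m2) (mem_ro m3)
      fun f hf γ q => (hcmb f hf o γ q).2.2.1
  · exact ks_pair hmap hloc hh h2 (pat_b o) (mem_ro m3) (mem_ro m4)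
      fun f hf γ q => (hcmb f hf o γ q).2.2.2.1
  · exact ks_pair hmap hloc hh h2 (pat_c o) (mem_ro m1) (mem_ro m4)
      fun f hf γ q => (hcmb f hf o γ q).2.2.2.2

end Pool.Agent.MWP.H10
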