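import Pool.Agent.MWP.Stmts

/-! Squad MWP, row LOC. -/

set_option autoImplicit false

namespace Pool.Agent.MWP.H10

open Pool.Agent.Helper14_MV Pool.Agent.Helper2_MV Pool.Agent.MWF

theorem mem_V7 {v : List ℕ} {c : ℕ} (h : c ∈ V7 v) : 7 ≤ c ∧ [c, c].Sublist (V7 v) := by
  unfold V7 dbl at h ⊢
  rw [List.mem_flatMap] at h
  obtain ⟨d, hd, hc⟩ := h
  have hcd : c = d := by
    simp only [List.mem_cons, List.not_mem_nil, or_false, or_self] at hc
    exact hc
  subst hcd
  obtain ⟨e, -, he⟩ := List.mem_map.1 hd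
  refine ⟨by omega, pair_flatMap.2 (Or.inl ⟨c, hd, List.Sublist.refl _⟩)⟩

theorem mem_c0 {v : List ℕ} {c : ℕ} (h : c ∈ c0 v) :
    (1 ≤ c ∧ c ≤ 4) ∨ [c, c].Sublist (c0 v) := by
  unfold c0 at h ⊢
  rw [List.append_assoc, List.mem_append, List.mem_append] at h
  rcases h with h | h | h
  · simp only [List.mem_cons, List.not_mem_nil, or_false] at h
    rcases h with rfl | rfl | rfl | rfl
    · exact Or.inl ⟨by omega, by omega⟩
    · right
      rw [List.append_assoc]
      exact pair_append.2 (Or.inl (by decide))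
    · right
      rw [List.append_assoc]
      exact pair_append.2 (Or.inl (by decide))
    · exact Or.inl ⟨by omega, by omega⟩
  · right
    rw [List.append_assoc]
    exact pair_append.2 (Or.inr (Or.inr (pair_append.2 (Or.inl (mem_V7 h).2))))
  · simp only [List.mem_cons, List.not_mem_nil, or_false] at h
    rcases h with rfl | rfl | rfl | rfl
    · exact Or.inl ⟨by omega, by omega⟩
    · right
      rw [List.append_assoc]
      exact pair_append.2 (Or.inr (Or.inr (pair_append.2 (Or.inr (Or.inr (by decide))))))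
    · right
      rw [List.append_assoc]
      exact pair_append.2 (Or.inr (Or.inr (pair_append.2 (Or.inr (Or.inr (by decide))))))
    · exact Or.inl ⟨by omega, by omega⟩

theorem zero_c0 {v : List ℕ} : 0 ∉ c0 v := by
  intro h
  unfold c0 at h
  rw [List.append_assoc, List.mem_append, List.mem_append] at h
  rcases h with h | h | h
  · simp at h
  · have := (mem_V7 h).1
    omega
  · simp at h

theorem low_c0 {v : List ℕ} {c : ℕ} (h1 : 1 ≤ c) (h4 : c ≤ 4) : c ∈ c0 v := by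
  unfold c0
  rw [List.append_assoc, List.mem_append, List.mem_append]
  have : c = 1 ∨ c = 2 ∨ c = 3 ∨ c = 4 := by omega
  rcases this with rfl | rfl | rfl | rfl
  · left; simp
  · left; simp
  · right; right; simp
  · right; right; simp

theorem split {A B w0 w1 : List ℕ} {z : ℕ} (h : A ++ B = w0 ++ z :: w1) :
    (∃ a, A = w0 ++ z :: a ∧ w1 = a ++ B) ∨ ∃ b, w0 = A ++ b ∧ B = b ++ z :: w1 := by
  rcases List.append_eq_append_iff.1 h with ⟨a, h1, h2⟩ | ⟨c, h1, h2⟩
  · exact Or.inr ⟨a, h1, h2⟩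
  · rcases c with _ | ⟨y, c⟩
    · right
      refine ⟨[], ?_, ?_⟩
      · rw [h1]
        simp
      · rw [List.nil_append] at h2 ⊢
        exact h2.symm
    · rw [List.cons_append, List.cons.injEq] at h2
      left
      exact ⟨c, by rw [h1, ← h2.1], h2.2⟩

theorem loc (hreg : RegStmt) : LocStmt := by
  intro v u u' f p q w0 w1 hu hu' hB hw
  have hSw : ∀ t : List ℕ, (Sw v t).flatMap f = (c0 v).flatMap f ++ (f 0 ++ t.flatMap f) := by
    intro t
    unfold Sw
    rw [List.flatMap_append, List.flatMap_cons]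
  obtain ⟨F, hF⟩ : ∃ F, F = (c0 v).flatMap f := ⟨_, rfl⟩
  obtain ⟨U, hU⟩ : ∃ U, U = u.flatMap f := ⟨_, rfl⟩
  obtain ⟨U', hU'⟩ : ∃ U', U' = u'.flatMap f := ⟨_, rfl⟩
  have hmU : ∀ x, x ∈ U ↔ x ∈ U' := by
    intro x
    rw [hU, hU', List.mem_flatMap, List.mem_flatMap]
    constructor
    · rintro ⟨c, hc, hx⟩
      exact ⟨c, (hu' c).2 ((hu c).1 hc), hx⟩
    · rintro ⟨c, hc, hx⟩
      exact ⟨c, (hu c).2 ((hu' c).1 hc), hx⟩
  have hUF : ∀ x ∈ U, x ∈ F := by
    intro x hx
    rw [hU, List.mem_flatMap] at hx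
    obtain ⟨c, hc, hx⟩ := hx
    have := (hu c).1 hc
    rw [hF, List.mem_flatMap]
    exact ⟨c, low_c0 this.1 this.2, hx⟩
  have hUF' : ∀ x ∈ U', x ∈ F := fun x hx => hUF x ((hmU x).2 hx)
  have h0w0 : 0 ∉ w0 := fun h => zero_c0 ((hB.m0 0).1 h)
  have h0w1 : 0 ∉ w1 := fun h => by
    have := (hB.m1 0).1 h
    omega
  rw [hSw, ← hF, ← hU] at hw
  have h00 : ¬ [0, 0].Sublist (p ++ (F ++ (f 0 ++ U)) ++ q) := by
    rw [hw, pair_append, pair_cons]
    rintro (h | ⟨h, -⟩ | ⟨-, h⟩ | h)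
    · exact h0w0 (pair_mem h).1
    · exact h0w0 h
    · exact h0w1 h
    · exact h0w1 (pair_mem h).1
  have h0F : 0 ∉ F := by
    intro h
    apply h00
    rw [pair_append]
    left
    rw [pair_append]
    right; right
    have h' := h
    rw [hF, List.mem_flatMap] at h
    obtain ⟨c, hc, hx⟩ := h
    rcases mem_c0 hc with h1 | h1
    · rw [pair_append]
      right; left
      refine ⟨h', List.mem_append.2 (Or.inr ?_)⟩
      rw [hU, List.mem_flatMap]
      exact ⟨c, (hu c).2 h1, hx⟩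
    · rw [pair_append]
      left
      rw [hF]
      exact pair_flatMap.2 (Or.inr ⟨c, c, h1, hx, hx⟩)
  have h0U : 0 ∉ U := fun h => h0F (hUF 0 h)
  -- the region lemma in the right form
  have reg : ∀ P Q : List ℕ, ∀ x y : ℕ, ([x, y].Sublist (P ++ (F ++ (f 0 ++ (U' ++ Q)))) ↔
      [x, y].Sublist (P ++ (F ++ (f 0 ++ (U ++ Q))))) := by
    intro P Q x y
    have := hreg P F (f 0) U' U Q (fun x => (hmU x).symm) hUF' x y
    simpa only [List.append_assoc] using this
  have mreg : ∀ P Q : List ℕ, ∀ x : ℕ, (x ∈ P ++ (F ++ (f 0 ++ (U' ++ Q))) ↔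
      x ∈ P ++ (F ++ (f 0 ++ (U ++ Q)))) := by
    intro P Q x
    simp only [List.mem_append, hmU x]
  rw [hSw, ← hF, ← hU']
  simp only [List.append_assoc] at hw ⊢
  rcases split hw with ⟨p2, h1, h2⟩ | ⟨a1, h1, h2⟩
  · -- the simple letter is in `p`
    refine ⟨w0, p2 ++ (F ++ (f 0 ++ (U' ++ q))), ?_, ⟨hB.m0, ?_, hB.pt, hB.tw⟩,
      Or.inl fun x y => ?_⟩
    · rw [h1]
      simp only [List.append_assoc, List.cons_append]
    · intro c
      rw [mreg, ← h2]
      exact hB.m1 c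
    · rw [h2]
      exact reg p2 q x y
  rcases split h2 with ⟨a2, h3, -⟩ | ⟨a2, h3, h4⟩
  · exact absurd (h3 ▸ (by simp : (0 : ℕ) ∈ a1 ++ 0 :: a2)) h0F
  rcases split h4 with ⟨γ, h5, h6⟩ | ⟨a3, h5, h6⟩
  · -- the simple letter is in `f 0`
    rw [h3] at h1
    refine ⟨w0, γ ++ (U' ++ q), ?_, ⟨hB.m0, ?_, hB.pt, hB.tw⟩,
      Or.inr ⟨a2, γ, ?_, ?_, rfl⟩⟩
    · rw [h1, h5]
      simp only [List.append_assoc, List.cons_append]
    · intro c
      rw [← hB.m1 c, h6]
      simp only [List.mem_append, hmU c]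
    · exact h1
    · rw [← hU]
      exact h6
  rcases split h6 with ⟨a4, h7, -⟩ | ⟨q1, h7, h8⟩
  · exact absurd (h7 ▸ (by simp : (0 : ℕ) ∈ a3 ++ 0 :: a4)) h0U
  · -- the simple letter is in `q`
    rw [h3, h5, h7] at h1
    have h1' : w0 = p ++ (F ++ (f 0 ++ (U ++ q1))) := h1
    refine ⟨p ++ (F ++ (f 0 ++ (U' ++ q1))), w1, ?_, ⟨?_, hB.m1, ?_, ?_⟩,
      Or.inl fun x y => Iff.rfl⟩
    · rw [h8]
      simp only [List.append_assoc]
    · intro c
      rw [mreg, ← h1']
      exact hB.m0 c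
    · intro c d hcd
      rw [reg, ← h1']
      exact hB.pt c d hcd
    · intro c hc hm
      rw [mreg, ← h1'] at hm
      rw [reg, ← h1']
      exact hB.tw c hc hm

end Pool.Agent.MWP.H10
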